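import Pool.Agent.Helper848.CornerFinal

namespace Pool.Agent.Results.MP_84cfc0_co.HalfIntrusion

open Pool.Agent.Helper848

/-- Q1: for every even `n ≥ 2`, the number `T(n, n/2)` of domino tilings of the `2n × 2n` square
with the diagonal corner intrusion of length `n/2` equals `2 ^ (n/2) * k ^ 2` with `k` odd. -/
theorem result : ∀ n : ℕ, 2 ≤ n → Even n →
    ∃ k : ℕ, Odd k ∧ numTilings (cornerRegion n (n / 2)) = 2 ^ (n / 2) * k ^ 2 := by
  intro n hn he
  obtain ⟨k, hk, h⟩ := Corner.main_le n (n / 2) (by omega) (by omega)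
  refine ⟨k, hk, ?_⟩
  rw [h]
  congr 2
  obtain ⟨a, rfl⟩ := he
  omega

end Pool.Agent.Results.MP_84cfc0_co.HalfIntrusion
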