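import Pool.Agent.Helper848.CornerFinal

namespace Pool.Agent.Results.MP_84cfc0_co.SquareOrTwiceSquare

open Pool.Agent.Helper848

/-- Q2: for all `n ≥ 1` and `0 ≤ m ≤ 2n - 1`, the number `T(n, m)` of domino tilings of the
`2n × 2n` square with the diagonal corner intrusion of length `m` is a perfect square or twice a
perfect square. -/
theorem result : ∀ n m : ℕ, 1 ≤ n → m ≤ 2 * n - 1 →
    ∃ a : ℕ, numTilings (cornerRegion n m) = a ^ 2 ∨ numTilings (cornerRegion n m) = 2 * a ^ 2 := by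
  intro n m hn hm
  by_cases h : m ≤ n
  · obtain ⟨k, -, h1⟩ := Corner.main_le n m hn h
    rcases Nat.even_or_odd' (n - m) with ⟨j, hj | hj⟩
    · refine ⟨2 ^ j * k, Or.inl ?_⟩
      rw [h1, hj]
      ring
    · refine ⟨2 ^ j * k, Or.inr ?_⟩
      rw [h1, hj]
      ring
  · refine ⟨0, Or.inl ?_⟩
    rw [Corner.main_gt n m (by omega) hm]
    norm_num

end Pool.Agent.Results.MP_84cfc0_co.SquareOrTwiceSquare
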